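import Pool.Agent.Helper75.OE.GoalsB2

set_option autoImplicit false

/-!
# Project OE (MP_fc0446_an): packet M72A

Lemma 7.2, first part.
-/

namespace Pool.Agent.Helper9.OE

open Pool.Agent.Helper73.OE Pool.Agent.Helper73.OE.Sys Pool.Agent.Helper75.OE Finset
open scoped ENNReal

open Classical in
/-- M72A. -/
theorem m72a : B_PM72a := by
  intro _ hstruct hcomp hnoch hdich hordf H S L _ _ _ X P ε ε' q η u Λ v o hma hl hne
  obtain ⟨l, hl⟩ := hl
  have hsub : ((Λ : Finset H) : Set H) ⊆ ((insert v Λ : Finset H) : Set H) := by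
    intro z hz
    exact Finset.mem_insert_of_mem hz
  obtain ⟨e2, hl1, ⟨hpw, hlS⟩, hsymO, hsymS, hsym1⟩ :=
    hordf H S L X ε ε' η (Λ : Set H) ((insert v Λ : Finset H) : Set H) l hl hsub
  obtain ⟨-, -, -, -, -, hsym2⟩ :=
    hordf H S L X ε ε' η ((insert v Λ : Finset H) : Set H) ((insert v Λ : Finset H) : Set H) l hl
      (Set.Subset.refl _)
  set b : H × S → Prop := fun e => e.1 ∈ (Λ : Set H) ∧ X.nb e.1 e.2 ∈ (Λ : Set H) with hb
  have hkey : ∀ i1 i2 : DecidablePred b, l.filter (fun e => @decide (b e) (i1 e)) =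
      l.filter (fun e => @decide (b e) (i2 e)) := by
    intro i1 i2
    have h12 : i1 = i2 := Subsingleton.elim _ _
    rw [h12]
  replace hl1 : X.IsOrd ε ε' η (Λ : Set H)
      (l.filter (fun e => @decide (b e) (Classical.propDecidable _))) := by
    rw [hkey (fun e => Classical.propDecidable (b e)) _]
    exact hl1
  obtain ⟨e1, -⟩ := hordf H S L X ε ε' η (Λ : Set H) (Λ : Set H) _ hl1 (Set.Subset.refl _)
  unfold Sys.dyn at hne
  rw [e1, e2] at hne
  set l1 := l.filter (fun e => @decide (b e) (Classical.propDecidable _)) with hl1d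
  set O := X.Op ε η with hO
  have htwo : TwoH X O (X.Si ε ε' η) q (insert v Λ) l1 l (X.inside (Λ : Set H) O)
      (X.inside ((insert v Λ : Finset H) : Set H) O) := by
    refine ⟨hsymO, hsymS, hma, ?_, ?_, hsym1, hsym2, ?_, ?_, hlS, ?_, hpw⟩
    · rintro z r ⟨h1, h2, h3⟩
      exact ⟨h1, hsub h2, hsub h3⟩
    · rintro z r ⟨h1, h2, h3⟩
      exact ⟨h1, h2, h3⟩
    · intro e he
      have := (hl.2 e).1 he
      exact ⟨this.2.1, this.2.2.1⟩
    · intro e he
      exact (List.mem_filter.1 he).1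
    · exact hpw.filter _
  set U := UU X P (Sys.sd P u) l1 (X.inside (Λ : Set H) O) q ∪
    UU X P (Sys.sd P u) l (X.inside ((insert v Λ : Finset H) : Set H) O) q with hU
  have hoU : o ∈ U := by
    by_contra ho
    apply hne
    rw [hU, Set.mem_union, not_or] at ho
    rw [hnoch H S L X P (Sys.sd P u) l _ q o, hnoch H S L X P (Sys.sd P u) l1 _ q o]
    · intro e' O' f' hr hmem
      exact ho.1 ⟨e', O', f', hr, hmem⟩
    · intro e' O' f' hr hmem
      exact ho.2 ⟨e', O', f', hr, hmem⟩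
  obtain ⟨C, Sp, hC, hCT⟩ := hstruct H S L X P (Sys.sd P u) O (X.Si ε ε' η) q (insert v Λ) l1 l
    (X.inside (Λ : Set H) O) (X.inside ((insert v Λ : Finset H) : Set H) O) o U htwo hU hoU
  refine ⟨C, Sp, _, hCT, ?_⟩
  by_contra hcon
  rw [not_or, not_exists] at hcon
  obtain ⟨hv, hnv⟩ := hcon
  apply hne
  have hoC : o ∈ (C : Set H) := hCT.sub hCT.root
  have hz1 : ∀ z ∈ (C : Set H), z ≠ v := by
    rintro z hz rfl
    exact hv hz
  have hz2 : ∀ z ∈ (C : Set H), ∀ r, X.nb z r ≠ v := by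
    intro z hz r h
    apply hnv (X.bar r)
    rw [← h, X.nb_bar]
    exact hz
  symm
  refine hcomp H S L X P (Sys.sd P u) b l (X.inside (Λ : Set H) O)
    (X.inside ((insert v Λ : Finset H) : Set H) O) q q (C : Set H) (fun _ _ => rfl) ?_ ?_ ?_ ?_
    o hoC
  · intro z hz r
    constructor
    · rintro ⟨h1, h2, h3⟩
      exact ⟨h1, hsub h2, hsub h3⟩
    · rintro ⟨h1, h2, h3⟩
      exact ⟨h1, Finset.mem_of_mem_insert_of_ne h2 (hz1 z hz),
        Finset.mem_of_mem_insert_of_ne h3 (hz2 z hz r)⟩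
  · intro e' O' f' hr
    rw [hC]
    refine hdich H S L X P O' f' e' U o ?_
    intro z hz
    exact Or.inl ⟨e', O', f', hr, hz⟩
  · intro e' O' f' hr
    rw [hC]
    refine hdich H S L X P O' f' e' U o ?_
    intro z hz
    exact Or.inr ⟨e', O', f', hr, hz⟩
  · intro e he hbe
    have h1 := (hl.2 e).1 he
    by_contra h2
    rw [not_or, not_not, not_not] at h2
    apply hbe
    exact ⟨Finset.mem_of_mem_insert_of_ne h1.2.1 (hz1 _ h2.1),
      Finset.mem_of_mem_insert_of_ne h1.2.2.1 (hz1 _ h2.2)⟩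

end Pool.Agent.Helper9.OE
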