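import Pool.Agent.Helper78.OE.GoalsC3

set_option autoImplicit false

/-!
# Project OE (MP_fc0446_an): packet OE-MOM

Moments of the number of available indices.
-/

open MeasureTheory Pool.Agent.Helper73.OE Pool.Agent.Helper78.OE
open scoped ENNReal

namespace Pool.Agent.Helper9.OE

/-! ### Real inequalities -/

theorem real_off (σ : ℝ) (h0 : 0 ≤ σ) (h1 : σ ≤ 1) (K : ℕ) :
    ∀ J : ℕ, J ≤ K → (2 * ∑ j ∈ Finset.range J, (j : ℝ) * σ ^ (2 * j + 1)) * σ ^ (2 * K) ≤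
      (∑ j ∈ Finset.range J, σ ^ (2 * j + 1)) ^ 2 ∧
      (J : ℝ) * σ ^ (2 * K) ≤ ∑ j ∈ Finset.range J, σ ^ (2 * j + 1) := by
  intro J
  induction J with
  | zero => intro _; simp
  | succ J ih =>
    intro hJ
    obtain ⟨i1, i2⟩ := ih (by omega)
    have e0 : 0 ≤ σ ^ (2 * J + 1) := pow_nonneg h0 _
    have e1 : σ ^ (2 * K) ≤ σ ^ (2 * J + 1) := pow_le_pow_of_le_one h0 h1 (by omega)
    rw [Finset.sum_range_succ, Finset.sum_range_succ]
    constructor
    · have h3 := mul_le_mul_of_nonneg_right i2 e0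
      nlinarith [sq_nonneg (σ ^ (2 * J + 1))]
    · push_cast
      nlinarith

section mom

variable {H S L : Type} [Group H] (X : Sys H S L) [Fintype S] [Fintype L]

open Classical in
theorem card_AS_range (P : Par) (ε : ℝ) (w : St H S L) (v : H) (p : S) (y : L) :
    ((X.AS P (Om X ε w) w.1 v p y).card : ℝ≥0∞) =
      ∑ j ∈ Finset.range P.J, NA X P.M ε (2 * j + 1) v p y w := by
  have h1 : ((X.AS P (Om X ε w) w.1 v p y).card : ℝ≥0∞) =
      ∑ i : Fin P.J × L, ind (X.Av (Om X ε w) P.M w.1 (2 * (i.1 : ℕ) + 1) v p y i.2) := by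
    unfold Sys.AS
    rw [Finset.card_filter]
    push_cast
    refine Finset.sum_congr rfl fun i _ => ?_
    by_cases hi : X.Av (Om X ε w) P.M w.1 (2 * (i.1 : ℕ) + 1) v p y i.2
    · rw [ind_true hi, if_pos hi]
    · rw [ind_false hi, if_neg hi]
  rw [h1, Fintype.sum_prod_type, ← Fin.sum_univ_eq_sum_range
    (fun j => NA X P.M ε (2 * j + 1) v p y w) P.J]
  rfl

theorem meas_NA {ε : ℝ} {μ : Measure (St H S L)} (C : Ctx X ε μ) (M m : ℕ) (v : H) (p : S)
    (y : L) : Measurable fun w : St H S L => NA X M ε m v p y w := by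
  unfold NA
  exact Finset.measurable_sum _ fun k _ => meas_av X C.meas C.locb ε M m v p y k

/-- First moment of the partial sums. -/
theorem first_part {ε : ℝ} {μ : Measure (St H S L)} (C : Ctx X ε μ) (h : AV0 X ε μ) (M : ℕ)
    (v : H) (p : S) (y : L) (G : St H S L → ℝ≥0∞) (hG : Test X v p y G) (J : ℕ) :
    ∫⁻ w, G w * ∑ j ∈ Finset.range J, NA X M ε (2 * j + 1) v p y w ∂μ =
      ((((Fintype.card L - 2 : ℕ) : ℝ≥0∞) * pE M ε ^ 2) *
        ∑ j ∈ Finset.range J, sg ε ^ (2 * j + 1)) * ∫⁻ w, G w ∂μ := by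
  simp only [Finset.mul_sum]
  have mj : ∀ j, Measurable fun w : St H S L => G w * NA X M ε (2 * j + 1) v p y w :=
    fun j => hG.meas.mul (meas_NA X C M _ v p y)
  rw [lintegral_finsetSum _ fun j _ => mj j, Finset.sum_mul]
  refine Finset.sum_congr rfl fun j _ => ?_
  rw [h M (2 * j + 1) v p y G hG]
  ring

/-- The diagonal terms. -/
theorem diag_part {ε : ℝ} {μ : Measure (St H S L)} (C : Ctx X ε μ) (h : AV0 X ε μ) (h2 : NA2 X)
    (M m : ℕ) (v : H) (p : S) (y : L) (G : St H S L → ℝ≥0∞) (hG : Test X v p y G) :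
    ∫⁻ w, G w * (NA X M ε m v p y w * NA X M ε m v p y w) ∂μ ≤
      (((Fintype.card L - 2 : ℕ) : ℝ≥0∞) *
        ((((Fintype.card L - 2 : ℕ) : ℝ≥0∞) * pE M ε ^ 2) * sg ε ^ m)) * ∫⁻ w, G w ∂μ := by
  have h3 : ∫⁻ w, G w * (NA X M ε m v p y w * NA X M ε m v p y w) ∂μ ≤
      ∫⁻ w, ((Fintype.card L - 2 : ℕ) : ℝ≥0∞) * (G w * NA X M ε m v p y w) ∂μ := by
    refine lintegral_mono fun w => ?_
    by_cases hw : w.1 v p = y
    · simp only [hG.van w hw, zero_mul, mul_zero, le_refl]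
    · have h4 := h2 ε M m v p y w hw
      calc G w * (NA X M ε m v p y w * NA X M ε m v p y w)
          ≤ G w * (((Fintype.card L - 2 : ℕ) : ℝ≥0∞) * NA X M ε m v p y w) := by gcongr
        _ = ((Fintype.card L - 2 : ℕ) : ℝ≥0∞) * (G w * NA X M ε m v p y w) := by ring
  refine h3.trans ?_
  have mj : Measurable fun w : St H S L => G w * NA X M ε m v p y w :=
    hG.meas.mul (meas_NA X C M _ v p y)
  rw [lintegral_const_mul _ mj, h M m v p y G hG]
  apply le_of_eq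
  ring

/-- The second moment of the partial sums. -/
theorem second_part {ε : ℝ} {μ : Measure (St H S L)} (C : Ctx X ε μ) (h : AV0 X ε μ)
    (h3 : SEC3 X ε μ) (h2 : NA2 X) (M' : ℕ)
    (v : H) (p : S) (y : L) (G : St H S L → ℝ≥0∞) (hG : Test X v p y G) (J : ℕ) :
    ∫⁻ w, G w * (∑ j ∈ Finset.range J, NA X (M' + 1) ε (2 * j + 1) v p y w) ^ 2 ∂μ ≤
      (((Fintype.card L - 2 : ℕ) : ℝ≥0∞) *
        ((((Fintype.card L - 2 : ℕ) : ℝ≥0∞) * pE (M' + 1) ε ^ 2) *
          ∑ j ∈ Finset.range J, sg ε ^ (2 * j + 1)) +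
        (((Fintype.card L - 2 : ℕ) : ℝ≥0∞) * pE (M' + 1) ε ^ 2) ^ 2 *
          (2 * ∑ j ∈ Finset.range J, (j : ℝ≥0∞) * sg ε ^ (2 * j + 1))) * ∫⁻ w, G w ∂μ := by
  induction J with
  | zero => simp
  | succ J ih =>
    set a : ℕ → St H S L → ℝ≥0∞ := fun j w => NA X (M' + 1) ε (2 * j + 1) v p y w with ha
    have ham : ∀ j, Measurable (a j) := fun j => meas_NA X C (M' + 1) _ v p y
    have e1 : ∀ w, G w * (∑ j ∈ Finset.range (J + 1), a j w) ^ 2 =
        G w * (∑ j ∈ Finset.range J, a j w) ^ 2 +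
          (2 * (∑ j ∈ Finset.range J, G w * (a j w * a J w)) + G w * (a J w * a J w)) := by
      intro w
      have e2 : ∑ j ∈ Finset.range J, G w * (a j w * a J w) =
          G w * ((∑ j ∈ Finset.range J, a j w) * a J w) := by
        rw [Finset.sum_mul, Finset.mul_sum]
      rw [e2, Finset.sum_range_succ]
      ring
    have m1 : Measurable fun w => G w * (∑ j ∈ Finset.range J, a j w) ^ 2 :=
      hG.meas.mul ((Finset.measurable_sum _ fun j _ => ham j).pow_const 2)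
    have m2 : Measurable fun w => ∑ j ∈ Finset.range J, G w * (a j w * a J w) :=
      Finset.measurable_sum _ fun j _ => hG.meas.mul ((ham j).mul (ham J))
    have mj : ∀ j, Measurable fun w => G w * (a j w * a J w) :=
      fun j => hG.meas.mul ((ham j).mul (ham J))
    rw [lintegral_congr e1, lintegral_add_left m1, lintegral_add_left (m2.const_mul 2),
      lintegral_const_mul _ m2, lintegral_finsetSum _ fun j _ => mj j]
    have b1 : ∑ j ∈ Finset.range J, ∫⁻ w, G w * (a j w * a J w) ∂μ ≤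
        ∑ j ∈ Finset.range J, (sg ε ^ (2 * J + 1) *
          (((Fintype.card L - 2 : ℕ) : ℝ≥0∞) * pE (M' + 1) ε ^ 2) ^ 2) * ∫⁻ w, G w ∂μ := by
      refine Finset.sum_le_sum fun j hj => ?_
      rw [Finset.mem_range] at hj
      have h4 := h3 M' (2 * j + 1) (2 * (J - j - 1)) v p y G hG
      have e5 : 2 * j + 1 + 2 * (J - j - 1) + 2 = 2 * J + 1 := by omega
      rw [e5] at h4
      refine h4.trans (le_of_eq ?_)
      ring
    have b2 := diag_part X C h h2 (M' + 1) (2 * J + 1) v p y G hG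
    refine (add_le_add ih (add_le_add (mul_le_mul_right b1 2) b2)).trans (le_of_eq ?_)
    rw [Finset.sum_const, Finset.card_range, nsmul_eq_mul, Finset.sum_range_succ,
      Finset.sum_range_succ]
    ring

end mom

section conv

theorem sum_ofReal (J : ℕ) (f : ℕ → ℝ) (hf : ∀ j, 0 ≤ f j) :
    ∑ j ∈ Finset.range J, ENNReal.ofReal (f j) = ENNReal.ofReal (∑ j ∈ Finset.range J, f j) :=
  (ENNReal.ofReal_sum_of_nonneg fun j _ => hf j).symm

theorem pE_eq {M : ℕ} {ε : ℝ} (h1 : ε ≤ 1) :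
    pE M ε = ENNReal.ofReal (1 - (1 - ε) ^ (M + 1)) := by
  unfold pE sg
  rw [← ENNReal.ofReal_pow (by linarith), ← ENNReal.ofReal_one,
    ← ENNReal.ofReal_sub _ (pow_nonneg (by linarith) _)]

theorem pp_nonneg {P : Par} {ε : ℝ} (h0 : 0 ≤ ε) (h1 : ε ≤ 1) : 0 ≤ pp P ε := by
  unfold pp
  have := pow_le_one₀ (n := P.M + 1) (by linarith : 0 ≤ 1 - ε) (by linarith)
  linarith

theorem c0_eq {n : ℕ} (hn : 3 ≤ n) {P : Par} {ε : ℝ} (h0 : 0 ≤ ε) (h1 : ε ≤ 1) :
    ((n - 2 : ℕ) : ℝ≥0∞) * pE P.M ε ^ 2 = ENNReal.ofReal (((n : ℝ) - 2) * pp P ε ^ 2) := by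
  have hn' : (0 : ℝ) ≤ (n : ℝ) - 2 := by
    have : (3 : ℝ) ≤ n := by exact_mod_cast hn
    linarith
  have e1 : pE P.M ε = ENNReal.ofReal (pp P ε) := pE_eq h1
  have e2 : ((n - 2 : ℕ) : ℝ≥0∞) = ENNReal.ofReal ((n : ℝ) - 2) := by
    rw [← ENNReal.ofReal_natCast, Nat.cast_sub (by omega)]
    norm_num
  rw [e1, e2, ← ENNReal.ofReal_pow (pp_nonneg (P := P) h0 h1), ← ENNReal.ofReal_mul hn']

theorem sg_sum {ε : ℝ} (h1 : ε ≤ 1) (J : ℕ) :
    ∑ j ∈ Finset.range J, sg ε ^ (2 * j + 1) =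
      ENNReal.ofReal (∑ j ∈ Finset.range J, (1 - ε) ^ (2 * j + 1)) := by
  rw [← sum_ofReal J _ fun j => pow_nonneg (by linarith) _]
  refine Finset.sum_congr rfl fun j _ => ?_
  rw [ENNReal.ofReal_pow (by linarith)]
  rfl

theorem sg_sum' {ε : ℝ} (h1 : ε ≤ 1) (J : ℕ) :
    ∑ j ∈ Finset.range J, (j : ℝ≥0∞) * sg ε ^ (2 * j + 1) =
      ENNReal.ofReal (∑ j ∈ Finset.range J, (j : ℝ) * (1 - ε) ^ (2 * j + 1)) := by
  rw [← sum_ofReal J _ fun j => mul_nonneg (Nat.cast_nonneg j) (pow_nonneg (by linarith) _)]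
  refine Finset.sum_congr rfl fun j _ => ?_
  rw [ENNReal.ofReal_mul (Nat.cast_nonneg j), ENNReal.ofReal_pow (by linarith),
    ENNReal.ofReal_natCast]
  rfl

end conv

variable {H S L : Type} [Group H] (X : Sys H S L) [Fintype S] [Fintype L]

/-- MOM. -/
theorem mom {ε : ℝ} {μ : Measure (St H S L)} (C : Ctx X ε μ) (h : AV0 X ε μ) (h3 : SEC3 X ε μ)
    (h2 : NA2 X) : MOM X ε μ := by
  intro hn P v p y G hG
  have h0 := C.nonneg
  have h1 := C.le_one
  have hn' : (0 : ℝ) ≤ (Fintype.card L : ℝ) - 2 := by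
    have : (3 : ℝ) ≤ Fintype.card L := by exact_mod_cast hn
    linarith
  have hc0 : (0 : ℝ) ≤ ((Fintype.card L : ℝ) - 2) * pp P ε ^ 2 := mul_nonneg hn' (sq_nonneg _)
  have hS1 : (0 : ℝ) ≤ ∑ j ∈ Finset.range P.J, (1 - ε) ^ (2 * j + 1) :=
    Finset.sum_nonneg fun j _ => pow_nonneg (by linarith) _
  have hS2 : (0 : ℝ) ≤ ∑ j ∈ Finset.range P.J, (j : ℝ) * (1 - ε) ^ (2 * j + 1) :=
    Finset.sum_nonneg fun j _ => mul_nonneg (Nat.cast_nonneg j) (pow_nonneg (by linarith) _)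
  constructor
  · rw [lintegral_congr fun w => by rw [card_AS_range X P ε w v p y]]
    rw [first_part X C h P.M v p y G hG P.J, c0_eq hn h0 h1, sg_sum h1,
      ← ENNReal.ofReal_mul hc0]
    rfl
  · intro hM hε
    obtain ⟨M', hM'⟩ : ∃ M', P.M = M' + 1 := ⟨P.M - 1, by omega⟩
    rw [lintegral_congr fun w => by rw [card_AS_range X P ε w v p y]]
    have h4 := second_part X C h h3 h2 M' v p y G hG P.J
    rw [← hM', c0_eq hn h0 h1, sg_sum h1, sg_sum' h1] at h4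
    refine h4.trans ?_
    gcongr
    have e1 : ((Fintype.card L - 2 : ℕ) : ℝ≥0∞) = ENNReal.ofReal ((Fintype.card L : ℝ) - 2) := by
      rw [← ENNReal.ofReal_natCast, Nat.cast_sub (by omega)]
      norm_num
    have e2 : (2 : ℝ≥0∞) = ENNReal.ofReal 2 := by norm_num
    rw [e1, e2, ← ENNReal.ofReal_mul hc0, ← ENNReal.ofReal_mul hn', ← ENNReal.ofReal_pow hc0,
      ← ENNReal.ofReal_mul (by norm_num), ← ENNReal.ofReal_mul (sq_nonneg _),
      ← ENNReal.ofReal_add (mul_nonneg hn' (mul_nonneg hc0 hS1))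
        (mul_nonneg (sq_nonneg _) (mul_nonneg (by norm_num) hS2))]
    apply ENNReal.ofReal_le_ofReal
    have hσ : 0 < (1 - ε) ^ (2 * P.J) := pow_pos (by linarith) _
    have h5 := (real_off (1 - ε) (by linarith) (by linarith) P.J P.J le_rfl).1
    have h6 : 2 * ∑ j ∈ Finset.range P.J, (j : ℝ) * (1 - ε) ^ (2 * j + 1) ≤
        (∑ j ∈ Finset.range P.J, (1 - ε) ^ (2 * j + 1)) ^ 2 / (1 - ε) ^ (2 * P.J) := by
      rw [le_div_iff₀ hσ]; exact h5
    have h7 : Lam (Fintype.card L) P ε =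
        (((Fintype.card L : ℝ) - 2) * pp P ε ^ 2) *
          ∑ j ∈ Finset.range P.J, (1 - ε) ^ (2 * j + 1) := rfl
    rw [h7]
    have h8 := mul_le_mul_of_nonneg_left h6 (sq_nonneg (((Fintype.card L : ℝ) - 2) * pp P ε ^ 2))
    have h9 : ((((Fintype.card L : ℝ) - 2) * pp P ε ^ 2) *
          ∑ j ∈ Finset.range P.J, (1 - ε) ^ (2 * j + 1)) ^ 2 / (1 - ε) ^ (2 * P.J) =
        (((Fintype.card L : ℝ) - 2) * pp P ε ^ 2) ^ 2 *
          ((∑ j ∈ Finset.range P.J, (1 - ε) ^ (2 * j + 1)) ^ 2 / (1 - ε) ^ (2 * P.J)) := by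
      rw [mul_pow, mul_div_assoc]
    rw [h9]
    exact add_le_add_right h8 _

end Pool.Agent.Helper9.OE
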