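import Pool.Agent.Helper35.OE.GoalsE

set_option autoImplicit false

/-!
# Project OE (MP_fc0446_an), block E: the initial law satisfies (*) for the threshold 1
-/

open MeasureTheory
open scoped ENNReal

namespace Pool.Agent.Helper9.OE

open Pool.Agent.Helper73.OE Pool.Agent.Helper35.OE

variable {H S L : Type} [Group H]

theorem cl_one (X : Sys H S L) (η : Env H S) (v : H) (s : S) : X.Cl 1 η v s := by
  unfold Sys.Cl
  constructor
  · have h := (η (v, s)).1.2
    nlinarith [h.1, h.2]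
  · have h := (η (X.rev (v, s))).1.2
    nlinarith [h.1, h.2]

theorem ma_one (X : Sys H S L) (η : Env H S) (A : Set H) (f : Cfg H S L) :
    X.MA (X.Op 1 η) A f := by
  intro v s _ _ h
  exact absurd (cl_one X η v s) h

open Classical in
theorem starAvg_one [Fintype S] [Fintype L] (X : Sys H S L) (η : Env H S) (Λ : Finset H)
    (F : Cfg H S L → ℝ≥0∞) :
    X.starAvg Λ (X.Op 1 η) F =
      (∑ f : Λ → (S ≃ L), F (X.glue Λ f)) / (Fintype.card (Λ → (S ≃ L)) : ℝ≥0∞) := by
  unfold Sys.starAvg Sys.starSum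
  simp [ma_one]

instance dmsEquiv (S L : Type) : DiscreteMeasurableSpace (S ≃ L) := ⟨fun _ => trivial⟩

open Classical in
theorem kap [Fintype S] [Fintype L] (κ : Measure (S ≃ L)) [IsProbabilityMeasure κ]
    (hκ : ∀ f g : S ≃ L, κ {f} = κ {g}) (f : S ≃ L) :
    κ {f} = ((Fintype.card (S ≃ L) : ℝ≥0∞))⁻¹ := by
  have h1 : ∑ g : S ≃ L, κ {g} = 1 := by
    rw [← measure_univ (μ := κ)]
    have := sum_measure_singleton (μ := κ) (s := (Finset.univ : Finset (S ≃ L)))
    rw [this]; simp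
  have h2 : ∑ g : S ≃ L, κ {g} = (Fintype.card (S ≃ L) : ℝ≥0∞) * κ {f} := by
    rw [Finset.sum_congr rfl (fun g _ => hκ g f)]
    simp
  have hc : (Fintype.card (S ≃ L) : ℝ≥0∞) ≠ 0 := by
    have : 0 < Fintype.card (S ≃ L) := Fintype.card_pos_iff.2 ⟨f⟩
    exact_mod_cast this.ne'
  rw [h2] at h1
  exact ENNReal.eq_inv_of_mul_eq_one_left (by rw [mul_comm]; exact h1)

omit [Group H] in
open Classical in
theorem lint_pi [Fintype S] [Fintype L] (Λ : Finset H) (κ : Measure (S ≃ L))
    [IsProbabilityMeasure κ] (hκ : ∀ f g : S ≃ L, κ {f} = κ {g})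
    (G : (Λ → (S ≃ L)) → ℝ≥0∞) :
    ∫⁻ f, G f ∂(Measure.pi fun _ : Λ => κ) =
      (∑ f, G f) / (Fintype.card (Λ → (S ≃ L)) : ℝ≥0∞) := by
  rw [lintegral_fintype, ENNReal.div_eq_inv_mul, Finset.mul_sum]
  refine Finset.sum_congr rfl fun f _ => ?_
  rw [Measure.pi_singleton, mul_comm]
  congr 1
  rw [Finset.prod_congr rfl (fun i _ => kap κ hκ (f i))]
  rw [Finset.prod_const, Fintype.card_fun, Finset.card_univ]
  push_cast
  rw [ENNReal.inv_pow]

open Classical in
/-- The initial law satisfies (*) for the threshold 1. -/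
theorem gINI1 : G_INI1 := by
  intro H S L _ _ _ _ X κ _ hκ o Λ _ F hF hdep
  have : IsProbabilityMeasure (Sys.lamE H S) := by
    unfold Sys.lamE; infer_instance
  rw [lintegral_prod_symm' F hF]
  refine lintegral_congr fun η => ?_
  rw [starAvg_one]
  have h1 : ∀ q : Cfg H S L, F (q, η) = (fun f => F (X.glue Λ f, η)) (Λ.restrict q) := by
    intro q
    refine hdep _ _ _ fun z hz => ?_
    simp [Sys.glue, hz]
  rw [lintegral_congr h1]
  have h2 := lintegral_restrict_infinitePi (μ := fun _ : H => κ) (s := Λ)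
    (f := fun f : Λ → (S ≃ L) => F (X.glue Λ f, η)) (by fun_prop)
  rw [h2]
  exact lint_pi Λ κ hκ _

end Pool.Agent.Helper9.OE
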